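import Pool.Agent.F2.Spec

/-!
# Project F2 (MP_6a0350_co), row T2: growth of the template of the boosters

A set of `t < c` black faces (or of white faces) of the bipyramid over a cycle of even length `c`
spans at least `t + 2` vertices, and at least `t + 3` vertices if `t ≥ 2`.
-/

set_option autoImplicit false
set_option linter.unusedSectionVars false

namespace F2

open Finset NW F1

/-! ## The vertices of the cycle -/

lemma cyv_val (c i : ℕ) (hc : 6 ≤ c) :
    (cyv c i : Fin (c + 2)).val = if i % c ≤ 1 then i % c + 1 else i % c + 2 := by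
  have hi : i % c < c := Nat.mod_lt _ (by omega)
  unfold cyv
  simp only [Fin.ofNat]
  apply Nat.mod_eq_of_lt
  split_ifs <;> omega

lemma cyv_mod (c i : ℕ) : cyv c (i % c) = cyv c i := by
  unfold cyv
  rw [Nat.mod_mod]

lemma cyv_inj (c : ℕ) (hc : 6 ≤ c) {i j : ℕ} (hi : i < c) (hj : j < c)
    (h : cyv c i = cyv c j) : i = j := by
  have h1 := congrArg Fin.val h
  rw [cyv_val c i hc, cyv_val c j hc, Nat.mod_eq_of_lt hi, Nat.mod_eq_of_lt hj] at h1
  split_ifs at h1 <;> omega

lemma cyv_ne_zero (c i : ℕ) (hc : 6 ≤ c) : cyv c i ≠ 0 := by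
  intro h
  have h1 := congrArg Fin.val h
  rw [cyv_val c i hc] at h1
  simp only [Fin.val_zero] at h1
  split_ifs at h1 <;> omega

lemma three_val (c : ℕ) (hc : 6 ≤ c) : ((3 : Fin (c + 2))).val = 3 := by
  have : ((3 : Fin (c + 2))).val = 3 % (c + 2) := rfl
  rw [this]
  exact Nat.mod_eq_of_lt (by omega)

lemma cyv_ne_three (c i : ℕ) (hc : 6 ≤ c) : cyv c i ≠ 3 := by
  intro h
  have h1 := congrArg Fin.val h
  rw [cyv_val c i hc, three_val c hc] at h1
  split_ifs at h1 <;> omega

/-- the apex of a face -/
def apx (c : ℕ) (b : Bool) : Fin (c + 2) := if b = true then 3 else 0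

lemma apx_inj (c : ℕ) (hc : 6 ≤ c) {b b' : Bool} (h : apx c b = apx c b') : b = b' := by
  have h3 := three_val c hc
  have key : (0 : Fin (c + 2)) ≠ 3 := by
    intro h0
    have h1 := congrArg Fin.val h0
    rw [h3] at h1
    simp at h1
  cases b <;> cases b'
  · rfl
  · simp only [apx] at h
    exact absurd h (by simpa using key)
  · simp only [apx] at h
    exact absurd h.symm (by simpa using key)
  · rfl

lemma cyv_ne_apx (c i : ℕ) (b : Bool) (hc : 6 ≤ c) : cyv c i ≠ apx c b := by
  unfold apx
  split_ifs
  · exact cyv_ne_three c i hc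
  · exact cyv_ne_zero c i hc

/-! ## Sets of indices -/

/-- a nonempty set of residues mod `c`, not everything, is not closed under the shift -/
lemma shift_card (c : ℕ) (hc : 0 < c) (I : Finset ℕ) (hI : I ⊆ range c) (hne : I.Nonempty)
    (hlt : I.card < c) : I.card + 1 ≤ (I ∪ I.image (fun i => (i + 1) % c)).card := by
  have hinj : Set.InjOn (fun i => (i + 1) % c) (I : Set ℕ) := by
    intro i hi j hj hij
    have hi' : i < c := mem_range.1 (hI hi)
    have hj' : j < c := mem_range.1 (hI hj)
    have h1 : (i + 1) % c = (j + 1) % c := hij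
    rcases Nat.lt_or_ge (i + 1) c with h | h
    · rcases Nat.lt_or_ge (j + 1) c with h' | h'
      · rw [Nat.mod_eq_of_lt h, Nat.mod_eq_of_lt h'] at h1
        omega
      · have hj2 : j + 1 = c := by omega
        rw [Nat.mod_eq_of_lt h, hj2, Nat.mod_self] at h1
        omega
    · have hi2 : i + 1 = c := by omega
      rcases Nat.lt_or_ge (j + 1) c with h' | h'
      · rw [Nat.mod_eq_of_lt h', hi2, Nat.mod_self] at h1
        omega
      · omega
  have hcard : (I.image (fun i => (i + 1) % c)).card = I.card := card_image_of_injOn hinj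
  by_contra hcon
  push Not at hcon
  have hsub : I.image (fun i => (i + 1) % c) ⊆ I ∪ I.image (fun i => (i + 1) % c) :=
    subset_union_right
  have hsub' : I ⊆ I ∪ I.image (fun i => (i + 1) % c) := subset_union_left
  have e2 : I = I ∪ I.image (fun i => (i + 1) % c) :=
    eq_of_subset_of_card_le hsub' (by omega)
  have hcl : ∀ i ∈ I, (i + 1) % c ∈ I := by
    intro i hi
    rw [e2]
    exact mem_union_right _ (mem_image.2 ⟨i, hi, rfl⟩)
  obtain ⟨i, hi⟩ := hne
  have hall : ∀ k, (i + k) % c ∈ I := by
    intro k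
    induction k with
    | zero =>
      rw [add_zero, Nat.mod_eq_of_lt (mem_range.1 (hI hi))]
      exact hi
    | succ k ih =>
      have := hcl _ ih
      rw [Nat.mod_add_mod] at this
      exact this
  have hr : range c ⊆ I := by
    intro j hj
    have hj' : j < c := mem_range.1 hj
    have hi' : i < c := mem_range.1 (hI hi)
    have h1 := hall (j + c - i)
    have h2 : i + (j + c - i) = j + c := by omega
    rw [h2, Nat.add_mod_right, Nat.mod_eq_of_lt hj'] at h1
    exact h1
  have := card_le_card hr
  rw [card_range] at this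
  omega

/-- if all indices have the same parity then the shift is disjoint -/
lemma shift_card_par (c : ℕ) (hc : 0 < c) (hev : Even c) (I : Finset ℕ) (hI : I ⊆ range c)
    (hpar : ∀ i ∈ I, ∀ j ∈ I, i % 2 = j % 2) :
    2 * I.card ≤ (I ∪ I.image (fun i => (i + 1) % c)).card := by
  have h2 : 2 ∣ c := hev.two_dvd
  have hdis : Disjoint I (I.image (fun i => (i + 1) % c)) := by
    rw [disjoint_left]
    intro j hj hj'
    obtain ⟨i, hi, rfl⟩ := mem_image.1 hj'
    have h3 := hpar _ hi _ hj
    rw [Nat.mod_mod_of_dvd _ h2] at h3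
    omega
  have hinj : Set.InjOn (fun i => (i + 1) % c) (I : Set ℕ) := by
    intro i hi j hj hij
    have hi' : i < c := mem_range.1 (hI hi)
    have hj' : j < c := mem_range.1 (hI hj)
    have h1 : (i + 1) % c = (j + 1) % c := hij
    rcases Nat.lt_or_ge (i + 1) c with h | h
    · rcases Nat.lt_or_ge (j + 1) c with h' | h'
      · rw [Nat.mod_eq_of_lt h, Nat.mod_eq_of_lt h'] at h1
        omega
      · have hj2 : j + 1 = c := by omega
        rw [Nat.mod_eq_of_lt h, hj2, Nat.mod_self] at h1
        omega
    · have hi2 : i + 1 = c := by omega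
      rcases Nat.lt_or_ge (j + 1) c with h' | h'
      · rw [Nat.mod_eq_of_lt h', hi2, Nat.mod_self] at h1
        omega
      · omega
  rw [card_union_of_disjoint hdis, card_image_of_injOn hinj]
  omega

/-- the combinatorial core: faces with indices `I`, apex given by the parity of the index -/
lemma index_grow (c : ℕ) (hc : 6 ≤ c) (hev : Even c) (β : ℕ → Bool)
    (hβ : ∀ i j, β i = β j → i % 2 = j % 2) (I : Finset ℕ) (hI : I ⊆ range c)
    (hne : I.Nonempty) (hlt : I.card < c) :
    I.card + 2 ≤ (I.biUnion (fun i => tface c (β i) i)).card ∧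
      (2 ≤ I.card → I.card + 3 ≤ (I.biUnion (fun i => tface c (β i) i)).card) := by
  classical
  set W := I.biUnion (fun i => tface c (β i) i) with hW
  set S := I ∪ I.image (fun i => (i + 1) % c) with hS
  have hSr : ∀ s ∈ S, s < c := by
    intro s hs
    rcases mem_union.1 hs with hs | hs
    · exact mem_range.1 (hI hs)
    · obtain ⟨i, -, rfl⟩ := mem_image.1 hs
      exact Nat.mod_lt _ (by omega)
  have hSc : (S.image (cyv c)).card = S.card := by
    apply card_image_of_injOn
    intro a ha b hb hab
    exact cyv_inj c hc (hSr a ha) (hSr b hb) hab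
  have hAdis : Disjoint (S.image (cyv c)) ((I.image β).image (apx c)) := by
    rw [disjoint_left]
    intro x hx hx'
    obtain ⟨s, -, rfl⟩ := mem_image.1 hx
    obtain ⟨b, -, hb⟩ := mem_image.1 hx'
    exact cyv_ne_apx c s b hc hb.symm
  have hsub : S.image (cyv c) ∪ (I.image β).image (apx c) ⊆ W := by
    intro x hx
    rcases mem_union.1 hx with hx | hx
    · obtain ⟨s, hs, rfl⟩ := mem_image.1 hx
      rcases mem_union.1 hs with hs | hs
      · refine mem_biUnion.2 ⟨s, hs, ?_⟩
        simp [tface]
      · obtain ⟨i, hi, rfl⟩ := mem_image.1 hs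
        refine mem_biUnion.2 ⟨i, hi, ?_⟩
        rw [cyv_mod]
        simp [tface]
    · obtain ⟨b, hb, rfl⟩ := mem_image.1 hx
      obtain ⟨i, hi, rfl⟩ := mem_image.1 hb
      refine mem_biUnion.2 ⟨i, hi, ?_⟩
      simp [tface, apx]
  have hAc : ((I.image β).image (apx c)).card = (I.image β).card := by
    apply card_image_of_injOn
    intro a _ b _ hab
    exact apx_inj c hc hab
  have hWc : S.card + (I.image β).card ≤ W.card := by
    calc S.card + (I.image β).card
        = (S.image (cyv c) ∪ (I.image β).image (apx c)).card := by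
          rw [card_union_of_disjoint hAdis, hSc, hAc]
      _ ≤ W.card := card_le_card hsub
  have h1 : I.card + 1 ≤ S.card := shift_card c (by omega) I hI hne hlt
  have hβ1 : 1 ≤ (I.image β).card := card_pos.2 (hne.image _)
  have hIp : 1 ≤ I.card := card_pos.2 hne
  rcases Nat.lt_or_ge (I.image β).card 2 with hb | hb
  · have hb1 : (I.image β).card ≤ 1 := by omega
    rw [card_le_one] at hb1
    have hpar : ∀ i ∈ I, ∀ j ∈ I, i % 2 = j % 2 := by
      intro i hi j hj
      exact hβ i j (hb1 _ (mem_image.2 ⟨i, hi, rfl⟩) _ (mem_image.2 ⟨j, hj, rfl⟩))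
    have h2 : 2 * I.card ≤ S.card := shift_card_par c (by omega) hev I hI hpar
    constructor
    · omega
    · intro h3
      omega
  · constructor
    · omega
    · intro _
      omega

/-- the same for triples of a placement -/
lemma place_grow (c : ℕ) (hc : 6 ≤ c) (hev : Even c) {V : Type} [Fintype V] [DecidableEq V]
    (h : Fin (c + 2) → V) (hh : Function.Injective h) (β : ℕ → Bool)
    (hβ : ∀ i j, β i = β j → i % 2 = j % 2) (T : Finset (Tri V))
    (hT : ∀ t ∈ T, ∃ i, i < c ∧ t.1 = (tface c (β i) i).image h)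
    (hne : T.Nonempty) (hlt : T.card < c) :
    T.card + 2 ≤ (vs T).card ∧ (2 ≤ T.card → T.card + 3 ≤ (vs T).card) := by
  classical
  choose! idx hidx using hT
  have hinj : Set.InjOn idx (T : Set (Tri V)) := by
    intro t ht t' ht' htt
    apply Subtype.ext
    rw [(hidx t ht).2, (hidx t' ht').2, htt]
  have hIc : (T.image idx).card = T.card := card_image_of_injOn hinj
  have hI : T.image idx ⊆ range c := by
    intro i hi
    obtain ⟨t, ht, rfl⟩ := mem_image.1 hi
    exact mem_range.2 (hidx t ht).1
  have hvs : vs T = ((T.image idx).biUnion (fun i => tface c (β i) i)).image h := by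
    ext x
    simp only [vs, mem_biUnion, mem_image]
    constructor
    · rintro ⟨t, ht, hx⟩
      rw [(hidx t ht).2, mem_image] at hx
      obtain ⟨y, hy, rfl⟩ := hx
      exact ⟨y, ⟨idx t, ⟨t, ht, rfl⟩, hy⟩, rfl⟩
    · rintro ⟨y, ⟨i, ⟨t, ht, rfl⟩, hy⟩, rfl⟩
      refine ⟨t, ht, ?_⟩
      rw [(hidx t ht).2]
      exact mem_image.2 ⟨y, hy, rfl⟩
  have hvc : (vs T).card = ((T.image idx).biUnion (fun i => tface c (β i) i)).card := by
    rw [hvs]
    exact card_image_of_injective _ hh
  have key := index_grow c hc hev β hβ (T.image idx) hI (hne.image _) (by omega)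
  rw [hIc] at key
  rw [hvc]
  exact key

/-- row T2 -/
theorem template_grow (c : ℕ) (hc : 6 ≤ c) (hev : Even c) {V : Type} [Fintype V] [DecidableEq V]
    (h : Fin (c + 2) → V) (hh : Function.Injective h) (T : Finset (Tri V))
    (hT : T ⊆ ON c h ∨ T ⊆ OFF c h) (hne : T.Nonempty) (hlt : T.card < c) :
    T.card + 2 ≤ (vs T).card ∧ (2 ≤ T.card → T.card + 3 ≤ (vs T).card) := by
  rcases hT with hT | hT
  · apply place_grow c hc hev h hh (fun i => decide (i % 2 = 0)) _ T _ hne hlt
    · intro i j hij
      have : (i % 2 = 0) ↔ (j % 2 = 0) := by simpa using hij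
      omega
    · intro t ht
      have h1 := hT ht
      simp only [ON, tON, mem_filter, mem_univ, true_and, mem_image, mem_union, mem_range] at h1
      obtain ⟨f, hf, hft⟩ := h1
      rcases hf with ⟨i, ⟨hi, hp⟩, rfl⟩ | ⟨i, ⟨hi, hp⟩, rfl⟩
      · refine ⟨i, hi, ?_⟩
        rw [← hft]
        have : decide (i % 2 = 0) = false := by simp [hp]
        rw [this]
      · refine ⟨i, hi, ?_⟩
        rw [← hft]
        have : decide (i % 2 = 0) = true := by simp [hp]
        rw [this]
  · apply place_grow c hc hev h hh (fun i => decide (i % 2 = 1)) _ T _ hne hlt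
    · intro i j hij
      have : (i % 2 = 1) ↔ (j % 2 = 1) := by simpa using hij
      omega
    · intro t ht
      have h1 := hT ht
      simp only [OFF, tOFF, mem_filter, mem_univ, true_and, mem_image, mem_union, mem_range] at h1
      obtain ⟨f, hf, hft⟩ := h1
      rcases hf with ⟨i, ⟨hi, hp, -⟩, rfl⟩ | ⟨i, ⟨hi, hp⟩, rfl⟩
      · refine ⟨i, hi, ?_⟩
        rw [← hft]
        have : decide (i % 2 = 1) = false := by simp [hp]
        rw [this]
      · refine ⟨i, hi, ?_⟩
        rw [← hft]
        have : decide (i % 2 = 1) = true := by simp [hp]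
        rw [this]

end F2
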