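import Pool.Agent.F2.Tem.A
import Pool.Agent.F2.Tem.Grow

/-!
# Project F2, row T4: the facts about the boosters
-/

set_option autoImplicit false

namespace F2

/-- the facts about the boosters -/
theorem template : TemplateStatement := by
  intro c hc he V _ _ h hh
  have hA := template_A c hc he V h hh
  exact ⟨hA.card_ON, hA.card_OFF, hA.disj, hA.vON, hA.vOFF, hA.packON, hA.packOFF, hA.edgON,
    hA.rt_disj, hA.bE_new, hA.face_bE, hA.face_rt, template_grow c hc he h hh⟩

end F2
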