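import Pool.Agent.F2.Tem.Grow

/-!
# Project F2 (MP_6a0350_co), row T3: number of placements of the boosters (helper25)
-/

set_option autoImplicit false
set_option linter.unusedSectionVars false

namespace F2

open Finset NW F1

/-! ## The template -/

/-- the neighbours of smaller index -/
def bk (j : ℕ) : Finset ℕ := if j = 3 then {1, 2} else {0, 1, 3, if j = 4 then 2 else j - 1}

lemma bk_card (j : ℕ) : (bk j).card ≤ 4 := by
  unfold bk
  split_ifs
  · exact (card_le_two).trans (by norm_num)
  · exact card_le_four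
  · exact card_le_four

lemma bk_of (j a : ℕ) (hj : 4 ≤ j) (ha : a = 0 ∨ a = 1 ∨ a = 3 ∨ (j = 4 ∧ a = 2) ∨
    (j ≠ 4 ∧ a = j - 1)) : a ∈ bk j := by
  unfold bk
  rw [if_neg (by omega)]
  simp only [mem_insert, mem_singleton]
  rcases ha with h | h | h | ⟨h, h'⟩ | ⟨h, h'⟩
  · exact Or.inl h
  · exact Or.inr (Or.inl h)
  · exact Or.inr (Or.inr (Or.inl h))
  · rw [if_pos h]; exact Or.inr (Or.inr (Or.inr h'))
  · rw [if_neg h]; exact Or.inr (Or.inr (Or.inr h'))

lemma bk_three (a : ℕ) (ha : a = 1 ∨ a = 2) : a ∈ bk 3 := by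
  unfold bk
  rw [if_pos rfl]
  simpa using ha

lemma cyv_true (c : ℕ) (hc : 6 ≤ c) (i : ℕ) (hi : i < c) (hi2 : i % 2 = 1) :
    (i = 1 ∧ (cyv c i).val = 2 ∧ (cyv c (i + 1)).val = 4) ∨
    (3 ≤ i ∧ i + 1 < c ∧ (cyv c i).val = i + 2 ∧ (cyv c (i + 1)).val = i + 3) ∨
    (i + 1 = c ∧ (cyv c i).val = i + 2 ∧ (cyv c (i + 1)).val = 1) := by
  rw [cyv_val c i hc, cyv_val c (i + 1) hc, Nat.mod_eq_of_lt hi]
  rcases Nat.lt_or_ge (i + 1) c with h | h
  · rw [Nat.mod_eq_of_lt h]
    by_cases h1 : i = 1
    · left; subst h1; simp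
    · right; left
      rw [if_neg (by omega), if_neg (by omega)]
      omega
  · right; right
    have h1 : i + 1 = c := by omega
    rw [h1, Nat.mod_self]
    rw [if_neg (by omega)]
    simp

lemma tOFF_bk (c : ℕ) (hc : 6 ≤ c) (hev : Even c) {f : Finset (Fin (c + 2))} (hf : f ∈ tOFF c)
    {a b : Fin (c + 2)} (ha : a ∈ f) (hb : b ∈ f) (hab : a.val < b.val) :
    3 ≤ b.val ∧ a.val ∈ bk b.val := by
  unfold tOFF at hf
  rw [mem_union, mem_image, mem_image] at hf
  obtain ⟨m, hm⟩ := hev
  rcases hf with ⟨i, hi, rfl⟩ | ⟨i, hi, rfl⟩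
  · rw [mem_filter, mem_range] at hi
    obtain ⟨hic, hi2, hi0⟩ := hi
    have hi1 : i + 1 < c := by omega
    have hval : ∀ x : Fin (c + 2), x ∈ tface c false i →
        x.val = 0 ∨ x.val = i + 2 ∨ x.val = i + 3 := by
      intro x hx
      unfold tface at hx
      simp only [Bool.false_eq_true, if_false, mem_insert, mem_singleton] at hx
      rcases hx with h | h | h
      · left; rw [h]; rfl
      · right; left
        rw [h, cyv_val c i hc, Nat.mod_eq_of_lt hic, if_neg (by omega)]
      · right; right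
        rw [h, cyv_val c (i + 1) hc, Nat.mod_eq_of_lt hi1, if_neg (by omega)]
    have h1 := hval a ha
    have h2 := hval b hb
    refine ⟨by omega, bk_of _ _ (by omega) ?_⟩
    omega
  · rw [mem_filter, mem_range] at hi
    have hval : ∀ x : Fin (c + 2), x ∈ tface c true i →
        x.val = 3 ∨ x.val = (cyv c i).val ∨ x.val = (cyv c (i + 1)).val := by
      intro x hx
      unfold tface at hx
      simp only [if_true, mem_insert, mem_singleton] at hx
      rcases hx with h | h | h
      · left; rw [h]; exact three_val c hc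
      · right; left; rw [h]
      · right; right; rw [h]
    have h1 := hval a ha
    have h2 := hval b hb
    have h3 := cyv_true c hc i hi.1 hi.2
    rcases Nat.lt_or_ge 3 b.val with hb3 | hb3
    · refine ⟨by omega, bk_of _ _ (by omega) ?_⟩
      omega
    · have hb4 : b.val = 3 := by omega
      refine ⟨by omega, ?_⟩
      rw [hb4]
      exact bk_three _ (by omega)

/-! ## Counting -/

section Count

variable {V : Type} [Fintype V] [DecidableEq V]

/-- partial placements -/
def Gd (E : Finset (Sym2 V)) (e : Fin 3 → V) (m : ℕ) (g : Fin m → V) : Prop :=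
  Function.Injective g ∧ (∀ (i : Fin m) (h : i.val < 3), g i = e ⟨i.val, h⟩) ∧
    ∀ i : Fin m, 3 ≤ i.val → ∀ a : Fin m, a.val < i.val → a.val ∈ bk i.val → s(g a, g i) ∈ E

lemma gd_snoc (E : Finset (Sym2 V)) (e : Fin 3 → V) (m : ℕ) (hm : 3 ≤ m) (g : Fin m → V)
    (hg : Gd E e m g) (v : V)
    (hv : v ∈ cnbr E ((univ.filter (fun a : Fin m => a.val ∈ bk m)).image g) ∅)
    (hv' : v ∉ univ.image g) : Gd E e (m + 1) (Fin.snoc g v) := by
  obtain ⟨h1, h2, h3⟩ := hg
  refine ⟨?_, ?_, ?_⟩
  · refine Fin.snoc_injective_iff.2 ⟨h1, ?_⟩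
    rintro ⟨a, rfl⟩
    exact hv' (mem_image_of_mem g (mem_univ a))
  · intro i hi
    induction i using Fin.lastCases with
    | last => rw [Fin.val_last] at hi; omega
    | cast i =>
      rw [Fin.snoc_castSucc]
      exact h2 i hi
  · intro i hi a hai hab
    induction i using Fin.lastCases with
    | last =>
      induction a using Fin.lastCases with
      | last => exact absurd hai (lt_irrefl _)
      | cast a =>
        rw [Fin.snoc_castSucc, Fin.snoc_last]
        rw [Fin.val_last, Fin.val_castSucc] at hab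
        unfold cnbr at hv
        rw [mem_filter] at hv
        exact hv.2.2 (g a) (mem_image_of_mem g (mem_filter.2 ⟨mem_univ _, hab⟩))
    | cast i =>
      induction a using Fin.lastCases with
      | last =>
        rw [Fin.val_last, Fin.val_castSucc] at hai
        have := i.isLt
        omega
      | cast a =>
        rw [Fin.snoc_castSucc, Fin.snoc_castSucc]
        exact h3 i hi a hai hab

open Classical in
lemma gd_step (E : Finset (Sym2 V)) (e : Fin 3 → V) (c d m : ℕ) (hm : 3 ≤ m) (hmc : m ≤ c + 1)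
    (hE : ∀ S : Finset V, S.card ≤ 4 → d + c + 2 ≤ (cnbr E S ∅).card) :
    d * (univ.filter (fun g : Fin m → V => Gd E e m g)).card ≤
      (univ.filter (fun g : Fin (m + 1) → V => Gd E e (m + 1) g)).card := by
  set A := univ.filter (fun g : Fin m → V => Gd E e m g) with hA
  let W : (Fin m → V) → Finset V := fun g =>
    cnbr E ((univ.filter (fun a : Fin m => a.val ∈ bk m)).image g) ∅ \ univ.image g
  have hW : ∀ g ∈ A, d ≤ (W g).card := by
    intro g _
    have h1 : ((univ.filter (fun a : Fin m => a.val ∈ bk m)).image g).card ≤ 4 := by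
      refine card_image_le.trans (le_trans ?_ (bk_card m))
      refine card_le_card_of_injOn (fun a : Fin m => a.val) ?_ ?_
      · intro a ha
        exact (mem_filter.1 ha).2
      · intro a _ b _ hab
        exact Fin.ext hab
    have h2 := hE _ h1
    have h3 : (univ.image g).card ≤ m := by
      refine card_image_le.trans ?_
      rw [card_univ, Fintype.card_fin]
    have h4 := le_card_sdiff (univ.image g)
      (cnbr E ((univ.filter (fun a : Fin m => a.val ∈ bk m)).image g) ∅)
    change d ≤ (cnbr E ((univ.filter (fun a : Fin m => a.val ∈ bk m)).image g) ∅ \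
      univ.image g).card
    omega
  have h5 : d * A.card ≤ (A.sigma W).card := by
    rw [card_sigma, mul_comm, ← smul_eq_mul]
    exact card_nsmul_le_sum A _ d hW
  refine h5.trans ?_
  refine card_le_card_of_injOn (fun x => Fin.snoc x.1 x.2) ?_ ?_
  · rintro ⟨g, v⟩ hx
    rw [mem_coe, mem_sigma] at hx
    obtain ⟨hx1, hx2⟩ := hx
    rw [hA, mem_filter] at hx1
    rw [mem_sdiff] at hx2
    rw [mem_coe, mem_filter]
    exact ⟨mem_univ _, gd_snoc E e m hm g hx1.2 v hx2.1 hx2.2⟩
  · rintro ⟨g, v⟩ _ ⟨g', v'⟩ _ h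
    have h6 := Fin.snoc_injective2 h
    obtain ⟨rfl, rfl⟩ := h6
    rfl

open Classical in
lemma gd_count (E : Finset (Sym2 V)) (e : Fin 3 → V) (he : Function.Injective e) (c d : ℕ)
    (hE : ∀ S : Finset V, S.card ≤ 4 → d + c + 2 ≤ (cnbr E S ∅).card) (k : ℕ)
    (hk : k + 3 ≤ c + 2) :
    d ^ k ≤ (univ.filter (fun g : Fin (k + 3) → V => Gd E e (k + 3) g)).card := by
  induction k with
  | zero =>
    rw [pow_zero, Nat.one_le_iff_ne_zero, card_ne_zero]
    refine ⟨e, mem_filter.2 ⟨mem_univ _, he, fun i h => rfl, fun i hi => ?_⟩⟩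
    have := i.isLt
    omega
  | succ k ih =>
    rw [pow_succ, mul_comm]
    refine (Nat.mul_le_mul_left d (ih (by omega))).trans ?_
    have := gd_step E e c d (k + 3) (by omega) (by omega) hE
    have h1 : k + 1 + 3 = k + 3 + 1 := by ring
    rw [h1]
    exact this

end Count

/-- **Row T3.** -/
theorem place : PlaceStatement := by
  classical
  intro c hc hev V _ _ E d r hE
  obtain ⟨x, y, z, hxy, hxz, hyz, hr⟩ := card_eq_three.1 r.2
  have he : Function.Injective (![x, y, z] : Fin 3 → V) := by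
    intro i j hij
    fin_cases i <;> fin_cases j <;> simp_all
  have h1 := gd_count E ![x, y, z] he c d hE (c - 1) (by omega)
  have h2 : c - 1 + 3 = c + 2 := by omega
  rw [h2] at h1
  refine h1.trans (card_le_card ?_)
  intro h hh
  rw [mem_filter] at hh
  obtain ⟨-, g1, g2, g3⟩ := hh
  unfold Pl
  rw [mem_filter]
  refine ⟨mem_univ _, g1, ?_, ?_⟩
  · have v0 : h 0 = x := by
      have := g2 (0 : Fin (c + 2)) (by simp)
      simpa using this
    have e1 : ((1 : Fin (c + 2))).val = 1 := by
      have : ((1 : Fin (c + 2))).val = 1 % (c + 2) := rfl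
      rw [this]
      exact Nat.mod_eq_of_lt (by omega)
    have e2 : ((2 : Fin (c + 2))).val = 2 := by
      have : ((2 : Fin (c + 2))).val = 2 % (c + 2) := rfl
      rw [this]
      exact Nat.mod_eq_of_lt (by omega)
    have v1 : h 1 = y := by
      have h5 := g2 (1 : Fin (c + 2)) (by rw [e1]; norm_num)
      have h6 : (⟨(1 : Fin (c + 2)).val, by rw [e1]; norm_num⟩ : Fin 3) = 1 := Fin.ext e1
      rw [h6] at h5
      simpa using h5
    have v2 : h 2 = z := by
      have h5 := g2 (2 : Fin (c + 2)) (by rw [e2]; norm_num)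
      have h6 : (⟨(2 : Fin (c + 2)).val, by rw [e2]; norm_num⟩ : Fin 3) = 2 := Fin.ext e2
      rw [h6] at h5
      simpa using h5
    unfold rt
    rw [v0, v1, v2, hr]
  · intro e he'
    unfold bE at he'
    rw [mem_biUnion] at he'
    obtain ⟨T, hT, heT⟩ := he'
    unfold OFF at hT
    rw [mem_filter, mem_image] at hT
    obtain ⟨-, f, hf, hfT⟩ := hT
    induction e with
    | h u v =>
      rw [NW.mk_mem_edg, ← hfT] at heT
      obtain ⟨hu, hv, huv⟩ := heT
      rw [mem_image] at hu hv
      obtain ⟨a, ha, rfl⟩ := hu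
      obtain ⟨b, hb, rfl⟩ := hv
      have hab : a.val ≠ b.val := fun h' => huv (by rw [Fin.ext h'])
      rcases lt_or_gt_of_ne hab with hlt | hlt
      · obtain ⟨k1, k2⟩ := tOFF_bk c hc hev hf ha hb hlt
        exact g3 b k1 a hlt k2
      · obtain ⟨k1, k2⟩ := tOFF_bk c hc hev hf hb ha hlt
        rw [Sym2.eq_swap]
        exact g3 a k1 b hlt k2

end F2
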