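import Pool.Agent.F2.Spec

/-!
# Project F2, row T1: the template of the boosters, all facts except the growth (helper72)
-/

set_option autoImplicit false
set_option linter.unusedSectionVars false
set_option linter.unusedSimpArgs false

namespace F2

open Finset NW F1

namespace Tem

/-- the next index of the cycle -/
def nx (c i : ℕ) : ℕ := if i + 1 = c then 0 else i + 1

/-- the previous index of the cycle -/
def pv (c i : ℕ) : ℕ := if i = 0 then c - 1 else i - 1

/-- the apexes -/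
def ap (c : ℕ) (b : Bool) : Fin (c + 2) := if b = true then 3 else 0

/-- the colour of a face, `true` is black -/
def col (b : Bool) (i : ℕ) : Bool := xor b (decide (i % 2 = 1))

/-- the codes of the edges: spokes and rim -/
abbrev Cd : Type := (Bool × ℕ) ⊕ ℕ

/-- the codes of the edges of a face -/
def fcodes (c : ℕ) (b : Bool) (i : ℕ) : Finset Cd :=
  {Sum.inl (b, i), Sum.inl (b, nx c i), Sum.inr i}

/-- valid codes -/
def Ok (c : ℕ) : Cd → Prop
  | Sum.inl (_, j) => j < c
  | Sum.inr j => j < c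

/-- the edge of a code -/
def enc {V : Type} (c : ℕ) (h : Fin (c + 2) → V) : Cd → Sym2 V
  | Sum.inl (b, j) => s(h (ap c b), h (cyv c j))
  | Sum.inr j => s(h (cyv c j), h (cyv c (nx c j)))

section basic

variable {c : ℕ}

theorem nx_lt (hc : 6 ≤ c) {i : ℕ} (hi : i < c) : nx c i < c := by
  unfold nx; split_ifs <;> omega

theorem cyv_val (hc : 6 ≤ c) {i : ℕ} (hi : i < c) :
    (cyv c i).val = if i ≤ 1 then i + 1 else i + 2 := by
  unfold cyv
  rw [Nat.mod_eq_of_lt hi]
  simp only [Fin.ofNat]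
  split_ifs <;> exact Nat.mod_eq_of_lt (by omega)

theorem ap_val (hc : 6 ≤ c) (b : Bool) : (ap c b).val = if b = true then 3 else 0 := by
  unfold ap
  split_ifs
  · have h3 : (3 : Fin (c + 2)).val = 3 % (c + 2) := rfl
    rw [h3]
    exact Nat.mod_eq_of_lt (by omega)
  · rfl

theorem cyv_inj (hc : 6 ≤ c) {i j : ℕ} (hi : i < c) (hj : j < c) (h : cyv c i = cyv c j) :
    i = j := by
  have h1 := congrArg Fin.val h
  rw [cyv_val hc hi, cyv_val hc hj] at h1
  split_ifs at h1 <;> omega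

theorem cyv_ne_ap (hc : 6 ≤ c) {i : ℕ} (hi : i < c) (b : Bool) : cyv c i ≠ ap c b := by
  intro h
  have h1 := congrArg Fin.val h
  rw [cyv_val hc hi, ap_val hc] at h1
  split_ifs at h1 <;> omega

theorem ap_inj (hc : 6 ≤ c) {b b' : Bool} (h : ap c b = ap c b') : b = b' := by
  have h1 := congrArg Fin.val h
  rw [ap_val hc, ap_val hc] at h1
  cases b <;> cases b' <;> simp_all

theorem cyv_nx {i : ℕ} (hc : 6 ≤ c) : cyv c (i + 1) = cyv c (nx c i) := by
  unfold nx
  split_ifs with h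
  · unfold cyv
    rw [h, Nat.mod_self, Nat.zero_mod]
  · rfl

theorem tface_eq (hc : 6 ≤ c) (b : Bool) (i : ℕ) :
    tface c b i = {ap c b, cyv c i, cyv c (nx c i)} := by
  unfold tface ap
  rw [cyv_nx hc]

theorem enc_inj {V : Type} (hc : 6 ≤ c) {h : Fin (c + 2) → V} (hh : Function.Injective h)
    {x y : Cd} (hx : Ok c x) (hy : Ok c y) (he : enc c h x = enc c h y) : x = y := by
  rcases x with ⟨b, j⟩ | j <;> rcases y with ⟨b', j'⟩ | j'
  · simp only [Ok] at hx hy
    simp only [enc, Sym2.eq_iff] at he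
    rcases he with ⟨h1, h2⟩ | ⟨h1, h2⟩
    · rw [ap_inj hc (hh h1), cyv_inj hc hx hy (hh h2)]
    · exact absurd (hh h1).symm (cyv_ne_ap hc hy b)
  · simp only [Ok] at hx hy
    simp only [enc, Sym2.eq_iff] at he
    rcases he with ⟨h1, h2⟩ | ⟨h1, h2⟩
    · exact absurd (hh h1).symm (cyv_ne_ap hc hy b)
    · exact absurd (hh h1).symm (cyv_ne_ap hc (nx_lt hc hy) b)
  · simp only [Ok] at hx hy
    simp only [enc, Sym2.eq_iff] at he
    rcases he with ⟨h1, h2⟩ | ⟨h1, h2⟩
    · exact absurd (hh h1) (cyv_ne_ap hc hx b')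
    · exact absurd (hh h2) (cyv_ne_ap hc (nx_lt hc hx) b')
  · simp only [Ok] at hx hy
    simp only [enc, Sym2.eq_iff] at he
    rcases he with ⟨h1, h2⟩ | ⟨h1, h2⟩
    · rw [cyv_inj hc hx hy (hh h1)]
    · have e1 := cyv_inj hc hx (nx_lt hc hy) (hh h1)
      have e2 := cyv_inj hc (nx_lt hc hx) hy (hh h2)
      unfold nx at e1 e2
      split_ifs at e1 e2 <;> omega

theorem ok_fcodes (hc : 6 ≤ c) {b : Bool} {i : ℕ} (hi : i < c) {x : Cd}
    (hx : x ∈ fcodes c b i) : Ok c x := by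
  simp only [fcodes, mem_insert, mem_singleton] at hx
  rcases hx with rfl | rfl | rfl
  · exact hi
  · exact nx_lt hc hi
  · exact hi

theorem col_eq_iff {b : Bool} {i i' : ℕ} (h : col b i = col b i') : i % 2 = i' % 2 := by
  unfold col at h
  have h1 := Nat.mod_two_eq_zero_or_one i
  have h2 := Nat.mod_two_eq_zero_or_one i'
  cases b <;> rcases h1 with h1 | h1 <;> rcases h2 with h2 | h2 <;> simp_all

theorem col_bool {b b' : Bool} {i : ℕ} (h : col b i = col b' i) : b = b' := by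
  unfold col at h
  have h1 := Nat.mod_two_eq_zero_or_one i
  cases b <;> cases b' <;> rcases h1 with h1 | h1 <;> simp_all

/-- two faces of the same colour have no common edge -/
theorem same_face (hc : 6 ≤ c) (he : Even c) {b b' : Bool} {i i' : ℕ} (hi : i < c)
    (hi' : i' < c) (hcol : col b i = col b' i') {x : Cd} (hx : x ∈ fcodes c b i)
    (hx' : x ∈ fcodes c b' i') : b = b' ∧ i = i' := by
  obtain ⟨k, hk⟩ := he
  simp only [fcodes, mem_insert, mem_singleton] at hx hx'
  rcases x with ⟨β, j⟩ | j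
  · simp only [Sum.inl.injEq, Prod.mk.injEq, reduceCtorEq, or_false] at hx hx'
    have hb : b = b' := by
      rcases hx with h | h <;> rcases hx' with h' | h' <;> rw [← h.1, ← h'.1]
    subst hb
    have hpar := col_eq_iff hcol
    refine ⟨rfl, ?_⟩
    unfold nx at hx hx'
    rcases hx with ⟨-, h⟩ | ⟨-, h⟩ <;> rcases hx' with ⟨-, h'⟩ | ⟨-, h'⟩
    · omega
    · split_ifs at h' <;> omega
    · split_ifs at h <;> omega
    · split_ifs at h h' <;> omega
  · simp only [Sum.inr.injEq, reduceCtorEq, false_or] at hx hx'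
    subst hx
    subst hx'
    exact ⟨col_bool hcol, rfl⟩

/-- every edge is in a face of each colour -/
theorem cover (hc : 6 ≤ c) (he : Even c) {x : Cd} (hx : Ok c x) (k : Bool) :
    ∃ b i, i < c ∧ col b i = k ∧ x ∈ fcodes c b i := by
  rcases x with ⟨β, j⟩ | j
  · simp only [Ok] at hx
    by_cases h : col β j = k
    · exact ⟨β, j, hx, h, by simp [fcodes]⟩
    · obtain ⟨l, hl⟩ := he
      have hp : pv c j < c := by unfold pv; split_ifs <;> omega
      have hn : nx c (pv c j) = j := by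
        unfold nx pv
        split_ifs <;> omega
      have hpar : pv c j % 2 = 1 ↔ ¬ j % 2 = 1 := by
        unfold pv
        split_ifs <;> omega
      refine ⟨β, pv c j, hp, ?_, by simp [fcodes, hn]⟩
      unfold col at h ⊢
      by_cases h2 : j % 2 = 1
      · have h3 : ¬ pv c j % 2 = 1 := fun h4 => hpar.1 h4 h2
        cases β <;> cases k <;> simp_all
      · have h3 : pv c j % 2 = 1 := hpar.2 h2
        cases β <;> cases k <;> simp_all
  · simp only [Ok] at hx
    by_cases h : col false j = k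
    · exact ⟨false, j, hx, h, by simp [fcodes]⟩
    · refine ⟨true, j, hx, ?_, by simp [fcodes]⟩
      unfold col at h ⊢
      by_cases h2 : j % 2 = 1 <;> cases k <;> simp_all

end basic

section faces

variable {c : ℕ} {V : Type} [Fintype V] [DecidableEq V] {h : Fin (c + 2) → V}

/-- the face as a set of vertices -/
def fc (c : ℕ) (h : Fin (c + 2) → V) (b : Bool) (i : ℕ) : Finset V := (tface c b i).image h

theorem fc_eq (hc : 6 ≤ c) (b : Bool) (i : ℕ) :
    fc c h b i = {h (ap c b), h (cyv c i), h (cyv c (nx c i))} := by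
  unfold fc
  rw [tface_eq hc]
  simp [Finset.image_insert]

theorem fc_ne (hc : 6 ≤ c) (hh : Function.Injective h) (b : Bool) {i : ℕ} (hi : i < c) :
    h (ap c b) ≠ h (cyv c i) ∧ h (cyv c i) ≠ h (cyv c (nx c i)) ∧
      h (ap c b) ≠ h (cyv c (nx c i)) := by
  refine ⟨fun e => cyv_ne_ap hc hi b (hh e).symm, fun e => ?_,
    fun e => cyv_ne_ap hc (nx_lt hc hi) b (hh e).symm⟩
  have e1 := cyv_inj hc hi (nx_lt hc hi) (hh e)
  unfold nx at e1
  split_ifs at e1 <;> omega

theorem edg_fc (hc : 6 ≤ c) (hh : Function.Injective h) (b : Bool) {i : ℕ} (hi : i < c) :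
    NW.edg (fc c h b i) = (fcodes c b i).image (enc c h) := by
  obtain ⟨h1, h2, h3⟩ := fc_ne hc hh b hi
  rw [fc_eq hc, NW.edg_triple h1 h2 h3]
  ext e
  simp only [NW.mem_tri, fcodes, mem_image, mem_insert, mem_singleton, exists_eq_or_imp,
    exists_eq_left, enc]
  constructor
  · rintro (rfl | rfl | rfl) <;> simp
  · rintro (rfl | rfl | rfl) <;> simp

theorem card_fc (hc : 6 ≤ c) (hh : Function.Injective h) (b : Bool) {i : ℕ} (hi : i < c) :
    (fc c h b i).card = 3 := by
  obtain ⟨h1, h2, h3⟩ := fc_ne hc hh b hi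
  rw [fc_eq hc]
  exact Finset.card_eq_three.2 ⟨_, _, _, h1, h3, h2, rfl⟩

theorem edg_disj (hc : 6 ≤ c) (he : Even c) (hh : Function.Injective h) {b b' : Bool} {i i' : ℕ}
    (hi : i < c) (hi' : i' < c) (hcol : col b i = col b' i') (hne : ¬ (b = b' ∧ i = i')) :
    Disjoint (NW.edg (fc c h b i)) (NW.edg (fc c h b' i')) := by
  rw [Finset.disjoint_left]
  intro e h1 h2
  rw [edg_fc hc hh b hi, mem_image] at h1
  rw [edg_fc hc hh b' hi', mem_image] at h2
  obtain ⟨x, hx, rfl⟩ := h1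
  obtain ⟨y, hy, hxy⟩ := h2
  have := enc_inj hc hh (ok_fcodes hc hi' hy) (ok_fcodes hc hi hx) hxy
  subst this
  exact hne (same_face hc he hi hi' hcol hx hy)

theorem fc_inj (hc : 6 ≤ c) (hh : Function.Injective h) {b b' : Bool} {i i' : ℕ}
    (hi : i < c) (hi' : i' < c) (hf : fc c h b i = fc c h b' i') : b = b' ∧ i = i' := by
  have h1 : NW.edg (fc c h b i) = NW.edg (fc c h b' i') := by rw [hf]
  rw [edg_fc hc hh b hi, edg_fc hc hh b' hi'] at h1
  have key : ∀ x ∈ fcodes c b i, x ∈ fcodes c b' i' := by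
    intro x hx
    have h2 : enc c h x ∈ (fcodes c b' i').image (enc c h) := by
      rw [← h1]
      exact mem_image_of_mem _ hx
    obtain ⟨y, hy, hxy⟩ := mem_image.1 h2
    have := enc_inj hc hh (ok_fcodes hc hi' hy) (ok_fcodes hc hi hx) hxy
    rwa [← this]
  have k1 := key (Sum.inr i) (by simp [fcodes])
  have k2 := key (Sum.inl (b, i)) (by simp [fcodes])
  simp only [fcodes, mem_insert, mem_singleton, reduceCtorEq, false_or, Sum.inr.injEq] at k1
  simp only [fcodes, mem_insert, mem_singleton, reduceCtorEq, or_false, Sum.inl.injEq,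
    Prod.mk.injEq] at k2
  refine ⟨?_, k1⟩
  rcases k2 with k | k <;> exact k.1

theorem rt_eq (hc : 6 ≤ c) : rt c h = fc c h false 0 := by
  rw [fc_eq hc]
  unfold rt
  have e0 : ap c false = 0 := by simp [ap]
  have e1 : cyv c 0 = 1 := by
    apply Fin.ext
    rw [cyv_val hc (by omega)]
    simp only [zero_le, if_true]
    exact (Nat.mod_eq_of_lt (by omega)).symm
  have e2 : cyv c (nx c 0) = 2 := by
    have : nx c 0 = 1 := by unfold nx; split_ifs <;> omega
    rw [this]
    apply Fin.ext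
    rw [cyv_val hc (by omega)]
    simp only [le_refl, if_true]
    exact (Nat.mod_eq_of_lt (by omega)).symm
  rw [e0, e1, e2]

theorem mem_ON {T : Tri V} : T ∈ ON c h ↔ ∃ b i, i < c ∧ col b i = true ∧ T.1 = fc c h b i := by
  unfold ON tON fc
  simp only [mem_filter, mem_univ, true_and, mem_image, mem_union, mem_range]
  constructor
  · rintro ⟨f, ⟨i, ⟨hi, hp⟩, rfl⟩ | ⟨i, ⟨hi, hp⟩, rfl⟩, hT⟩
    · exact ⟨false, i, hi, by simp [col, hp], hT.symm⟩
    · exact ⟨true, i, hi, by simp [col, hp], hT.symm⟩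
  · rintro ⟨b, i, hi, hcol, hT⟩
    cases b
    · refine ⟨_, Or.inl ⟨i, ⟨hi, ?_⟩, rfl⟩, hT.symm⟩
      simpa [col] using hcol
    · refine ⟨_, Or.inr ⟨i, ⟨hi, ?_⟩, rfl⟩, hT.symm⟩
      simpa [col] using hcol

theorem mem_OFF {T : Tri V} : T ∈ OFF c h ↔
    ∃ b i, i < c ∧ col b i = false ∧ ¬ (b = false ∧ i = 0) ∧ T.1 = fc c h b i := by
  unfold OFF tOFF fc
  simp only [mem_filter, mem_univ, true_and, mem_image, mem_union, mem_range]
  constructor
  · rintro ⟨f, ⟨i, ⟨hi, hp, hp2⟩, rfl⟩ | ⟨i, ⟨hi, hp⟩, rfl⟩, hT⟩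
    · exact ⟨false, i, hi, by simp [col, hp], fun h => hp2 h.2, hT.symm⟩
    · exact ⟨true, i, hi, by simp [col, hp], fun h => Bool.noConfusion h.1, hT.symm⟩
  · rintro ⟨b, i, hi, hcol, hne, hT⟩
    cases b
    · refine ⟨_, Or.inl ⟨i, ⟨hi, ?_, fun h0 => hne ⟨rfl, h0⟩⟩, rfl⟩, hT.symm⟩
      simpa [col] using hcol
    · refine ⟨_, Or.inr ⟨i, ⟨hi, ?_⟩, rfl⟩, hT.symm⟩
      simpa [col] using hcol

theorem card_le (S : Finset (Finset (Fin (c + 2)))) :
    (univ.filter (fun T : Tri V => T.1 ∈ S.image (fun f => f.image h))).card ≤ S.card := by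
  have h1 : (univ.filter (fun T : Tri V => T.1 ∈ S.image (fun f => f.image h))).card ≤
      (S.image (fun f => f.image h)).card := by
    refine Finset.card_le_card_of_injOn (fun T => T.1) ?_ ?_
    · intro T hT
      exact (mem_filter.1 hT).2
    · intro T _ T' _ hTT
      exact Subtype.ext hTT
  exact h1.trans Finset.card_image_le

theorem sub_image (b : Bool) (i : ℕ) : fc c h b i ⊆ univ.image h := by
  unfold fc
  exact Finset.image_subset_image (subset_univ _)

/-- the edges of all faces of one colour -/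
theorem all_edges (hc : 6 ≤ c) (he : Even c) (hh : Function.Injective h) (k : Bool)
    (e : Sym2 V) : (∃ x, Ok c x ∧ enc c h x = e) ↔
      ∃ b i, i < c ∧ col b i = k ∧ e ∈ NW.edg (fc c h b i) := by
  constructor
  · rintro ⟨x, hx, rfl⟩
    obtain ⟨b, i, hi, hcol, hxm⟩ := cover hc he hx k
    refine ⟨b, i, hi, hcol, ?_⟩
    rw [edg_fc hc hh b hi]
    exact mem_image_of_mem _ hxm
  · rintro ⟨b, i, hi, hcol, hem⟩
    rw [edg_fc hc hh b hi] at hem
    obtain ⟨x, hx, rfl⟩ := mem_image.1 hem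
    exact ⟨x, ok_fcodes hc hi hx, rfl⟩

theorem mem_bE (hc : 6 ≤ c) (hh : Function.Injective h) {e : Sym2 V} : e ∈ bE c h ↔
    ∃ b i, i < c ∧ col b i = false ∧ ¬ (b = false ∧ i = 0) ∧ e ∈ NW.edg (fc c h b i) := by
  unfold bE
  rw [mem_biUnion]
  constructor
  · rintro ⟨T, hT, hem⟩
    obtain ⟨b, i, hi, hcol, hne, hTe⟩ := mem_OFF.1 hT
    rw [hTe] at hem
    exact ⟨b, i, hi, hcol, hne, hem⟩
  · rintro ⟨b, i, hi, hcol, hne, hem⟩
    exact ⟨⟨fc c h b i, card_fc hc hh b hi⟩, mem_OFF.2 ⟨b, i, hi, hcol, hne, rfl⟩, hem⟩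

end faces

end Tem

/-- the facts about one booster, without the growth -/
structure BoostFactsA (c : ℕ) {V : Type} [Fintype V] [DecidableEq V] (h : Fin (c + 2) → V) :
    Prop where
  card_ON : (ON c h).card ≤ 2 * c
  card_OFF : (OFF c h).card ≤ 2 * c
  disj : Disjoint (ON c h) (OFF c h)
  vON : ∀ T ∈ ON c h, T.1 ⊆ univ.image h
  vOFF : ∀ T ∈ OFF c h, T.1 ⊆ univ.image h
  packON : ∀ T ∈ ON c h, ∀ T' ∈ ON c h, T ≠ T' → Disjoint (NW.edg T.1) (NW.edg T'.1)
  packOFF : ∀ T ∈ OFF c h, ∀ T' ∈ OFF c h, T ≠ T' → Disjoint (NW.edg T.1) (NW.edg T'.1)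
  edgON : (ON c h).biUnion (fun T => NW.edg T.1) = NW.edg (rt c h) ∪ bE c h
  rt_disj : Disjoint (NW.edg (rt c h)) (bE c h)
  bE_new : ∀ e ∈ bE c h, ¬ e ∈ NW.edg (rt c h)
  face_bE : ∀ T ∈ ON c h ∪ OFF c h, ∃ e ∈ NW.edg T.1, e ∈ bE c h
  face_rt : ∀ T ∈ ON c h ∪ OFF c h, (rt c h ∩ T.1).card ≤ 2

open Tem in
theorem template_A : ∀ c : ℕ, 6 ≤ c → Even c → ∀ (V : Type) [Fintype V] [DecidableEq V]
    (h : Fin (c + 2) → V), Function.Injective h → BoostFactsA c h := by
  intro c hc he V _ _ h hh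
  have h0c : 0 < c := by omega
  have hcol0 : col false 0 = false := by simp [col]
  have hrtd : ∀ e, e ∈ NW.edg (rt c h) → e ∈ bE c h → False := by
    intro e h1 h2
    rw [rt_eq hc] at h1
    obtain ⟨b, i, hi, hcol, hne, hem⟩ := (mem_bE hc hh).1 h2
    exact Finset.disjoint_left.1 (edg_disj hc he hh hi h0c (hcol.trans hcol0.symm) hne) hem h1
  have hON : ∀ e : Sym2 V, (∃ T ∈ ON c h, e ∈ NW.edg T.1) ↔ ∃ x, Ok c x ∧ enc c h x = e := by
    intro e
    rw [all_edges hc he hh true]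
    constructor
    · rintro ⟨T, hT, hem⟩
      obtain ⟨b, i, hi, hcol, hTe⟩ := mem_ON.1 hT
      rw [hTe] at hem
      exact ⟨b, i, hi, hcol, hem⟩
    · rintro ⟨b, i, hi, hcol, hem⟩
      exact ⟨⟨fc c h b i, card_fc hc hh b hi⟩, mem_ON.2 ⟨b, i, hi, hcol, rfl⟩, hem⟩
  have hW : ∀ e : Sym2 V, (e ∈ NW.edg (rt c h) ∪ bE c h) ↔ ∃ x, Ok c x ∧ enc c h x = e := by
    intro e
    rw [all_edges hc he hh false, mem_union, mem_bE hc hh, rt_eq hc]
    constructor
    · rintro (h1 | ⟨b, i, hi, hcol, -, hem⟩)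
      · exact ⟨false, 0, h0c, hcol0, h1⟩
      · exact ⟨b, i, hi, hcol, hem⟩
    · rintro ⟨b, i, hi, hcol, hem⟩
      by_cases h1 : b = false ∧ i = 0
      · obtain ⟨rfl, rfl⟩ := h1
        exact Or.inl hem
      · exact Or.inr ⟨b, i, hi, hcol, h1, hem⟩
  have hface : ∀ T ∈ ON c h ∪ OFF c h, ∃ b i, i < c ∧ ¬ (b = false ∧ i = 0) ∧
      T.1 = fc c h b i := by
    intro T hT
    rcases mem_union.1 hT with hT | hT
    · obtain ⟨b, i, hi, hcol, hTe⟩ := mem_ON.1 hT
      refine ⟨b, i, hi, ?_, hTe⟩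
      rintro ⟨rfl, rfl⟩
      rw [hcol0] at hcol
      exact Bool.noConfusion hcol
    · obtain ⟨b, i, hi, hcol, hne, hTe⟩ := mem_OFF.1 hT
      exact ⟨b, i, hi, hne, hTe⟩
  refine ⟨?_, ?_, ?_, ?_, ?_, ?_, ?_, ?_, ?_, ?_, ?_, ?_⟩
  · refine (card_le (tON c)).trans ?_
    unfold tON
    refine (card_union_le _ _).trans ?_
    have h1 : (((range c).filter (fun i => i % 2 = 1)).image (tface c false)).card ≤ c :=
      card_image_le.trans ((card_filter_le _ _).trans (card_range c).le)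
    have h2 : (((range c).filter (fun i => i % 2 = 0)).image (tface c true)).card ≤ c :=
      card_image_le.trans ((card_filter_le _ _).trans (card_range c).le)
    omega
  · refine (card_le (tOFF c)).trans ?_
    unfold tOFF
    refine (card_union_le _ _).trans ?_
    have h1 : (((range c).filter (fun i => i % 2 = 0 ∧ i ≠ 0)).image (tface c false)).card ≤ c :=
      card_image_le.trans ((card_filter_le _ _).trans (card_range c).le)
    have h2 : (((range c).filter (fun i => i % 2 = 1)).image (tface c true)).card ≤ c :=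
      card_image_le.trans ((card_filter_le _ _).trans (card_range c).le)
    omega
  · rw [Finset.disjoint_left]
    intro T h1 h2
    obtain ⟨b, i, hi, hcol, hTe⟩ := mem_ON.1 h1
    obtain ⟨b', i', hi', hcol', hne, hTe'⟩ := mem_OFF.1 h2
    obtain ⟨rfl, rfl⟩ := fc_inj hc hh hi hi' (hTe.symm.trans hTe')
    rw [hcol] at hcol'
    exact Bool.noConfusion hcol'
  · intro T hT
    obtain ⟨b, i, hi, hcol, hTe⟩ := mem_ON.1 hT
    rw [hTe]
    exact sub_image b i
  · intro T hT
    obtain ⟨b, i, hi, hcol, hne, hTe⟩ := mem_OFF.1 hT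
    rw [hTe]
    exact sub_image b i
  · intro T hT T' hT' hTT
    obtain ⟨b, i, hi, hcol, hTe⟩ := mem_ON.1 hT
    obtain ⟨b', i', hi', hcol', hTe'⟩ := mem_ON.1 hT'
    rw [hTe, hTe']
    refine edg_disj hc he hh hi hi' (hcol.trans hcol'.symm) ?_
    rintro ⟨rfl, rfl⟩
    exact hTT (Subtype.ext (hTe.trans hTe'.symm))
  · intro T hT T' hT' hTT
    obtain ⟨b, i, hi, hcol, hne, hTe⟩ := mem_OFF.1 hT
    obtain ⟨b', i', hi', hcol', hne', hTe'⟩ := mem_OFF.1 hT'
    rw [hTe, hTe']
    refine edg_disj hc he hh hi hi' (hcol.trans hcol'.symm) ?_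
    rintro ⟨rfl, rfl⟩
    exact hTT (Subtype.ext (hTe.trans hTe'.symm))
  · ext e
    rw [hW e, mem_biUnion, hON e]
  · rw [Finset.disjoint_left]
    exact fun e h1 h2 => hrtd e h1 h2
  · exact fun e h1 h2 => hrtd e h2 h1
  · intro T hT
    obtain ⟨b, i, hi, hne, hTe⟩ := hface T hT
    -- an edge which is not an edge of the root
    have key : ∃ x ∈ fcodes c b i, x ∉ fcodes c false 0 := by
      cases b
      · refine ⟨Sum.inr i, by simp [fcodes], ?_⟩
        simp only [fcodes, mem_insert, mem_singleton, reduceCtorEq, false_or, Sum.inr.injEq]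
        exact fun h0 => hne ⟨rfl, h0⟩
      · refine ⟨Sum.inl (true, i), by simp [fcodes], ?_⟩
        simp [fcodes]
    obtain ⟨x, hx, hx0⟩ := key
    have hok := ok_fcodes hc hi hx
    refine ⟨enc c h x, ?_, ?_⟩
    · rw [hTe, edg_fc hc hh b hi]
      exact mem_image_of_mem _ hx
    · have h1 := (hW (enc c h x)).2 ⟨x, hok, rfl⟩
      rcases mem_union.1 h1 with h1 | h1
      · exfalso
        rw [rt_eq hc, edg_fc hc hh false h0c] at h1
        obtain ⟨y, hy, hxy⟩ := mem_image.1 h1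
        have := enc_inj hc hh (ok_fcodes hc h0c hy) hok hxy
        exact hx0 (this ▸ hy)
      · exact h1
  · intro T hT
    obtain ⟨b, i, hi, hne, hTe⟩ := hface T hT
    by_contra hcon
    push Not at hcon
    have h3 : T.1.card = 3 := T.2
    have hr3 : (rt c h).card = 3 := by rw [rt_eq hc]; exact card_fc hc hh false h0c
    have e1 : rt c h ∩ T.1 = T.1 :=
      Finset.eq_of_subset_of_card_le inter_subset_right (by omega)
    have e2 : rt c h ∩ T.1 = rt c h :=
      Finset.eq_of_subset_of_card_le inter_subset_left (by omega)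
    have e3 : fc c h b i = fc c h false 0 := by
      rw [← hTe, ← rt_eq hc, ← e1, e2]
    exact hne (fc_inj hc hh hi h0c e3)

end F2
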